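import Pool.Agent.Helper95.KZ.Goals
import Pool.Agent.Helper74.NW.ZED

/-!
# KZ-EN: infinitely many disjoint lines which do not separate give a complete minor
-/

set_option autoImplicit false

namespace Pool.Agent.Helper66.KZ

open Pool.Agent.Helper52.Wq2 Pool.Agent.Helper61.NW Pool.Agent.Helper95.KZ
open Pool.Agent.Helper74.NW (Rel combine kn_of)

universe u

theorem rel_of_conn {V : Type u} {G : SimpleGraph V} {s : Set V} (h : Conn G s) {x y : V}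
    (hx : x ∈ s) (hy : y ∈ s) : Relation.ReflTransGen (Rel G s) x y := by
  have h1 := h.2 {y | y ∈ s ∧ Relation.ReflTransGen (Rel G s) x y} (fun y hy => hy.1)
    ⟨x, hx, Relation.ReflTransGen.refl⟩ (by
      rintro p ⟨hp, hp2⟩ q hq hpq
      exact ⟨hq, hp2.tail ⟨hpq, hp, hq⟩⟩)
  exact (h1 hy).2

theorem cay_shift {Γ : Type u} [Group Γ] {S : Set Γ} (g : Γ) {x y : Γ} (h : (cay S).Adj x y) :
    (cay S).Adj (g * x) (g * y) := by
  unfold cay at h ⊢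
  rw [SimpleGraph.fromRel_adj] at h ⊢
  have e : ∀ x y : Γ, (g * x)⁻¹ * (g * y) = x⁻¹ * y := by intro x y; group
  rw [e, e]
  exact ⟨fun h1 => h.1 (mul_left_cancel h1), h.2⟩

theorem rel_shift {Γ : Type u} [Group Γ] {S : Set Γ} (g : Γ) {X Y : Set Γ}
    (hXY : ∀ x ∈ X, g * x ∈ Y) {x y : Γ} (h : Relation.ReflTransGen (Rel (cay S) X) x y) :
    Relation.ReflTransGen (Rel (cay S) Y) (g * x) (g * y) := by
  refine Relation.ReflTransGen.lift (fun y => g * y) ?_ _ _ h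
  rintro p q ⟨k1, k2, k3⟩
  exact ⟨cay_shift _ k1, hXY _ k2, hXY _ k3⟩

theorem en (slc : SlcStmt.{u}) (far : FarStmt.{u}) : EnStmt.{u} := by
  intro Γ _ S a b k B hPl z l hzb hz hl hzl L hL hLl hJ
  classical
  have hab : ∀ n i j : ℤ, ∀ x : Γ, b ^ n * (a ^ i * b ^ j * x) = a ^ i * b ^ (j + n) * x := by
    intro n i j x
    have h1 : b ^ n * a ^ i = a ^ i * b ^ n :=
      ((show Commute a b from hPl.ab).symm.zpow_zpow n i).eq
    calc b ^ n * (a ^ i * b ^ j * x) = (b ^ n * a ^ i) * b ^ j * x := by simp only [mul_assoc]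
      _ = a ^ i * (b ^ n * b ^ j) * x := by rw [h1]; simp only [mul_assoc]
      _ = a ^ i * b ^ (j + n) * x := by rw [← zpow_add, add_comm n j]
  obtain ⟨x₀, hx₀⟩ := hl.1
  obtain ⟨W, hWf, hWc, hWl, ⟨p, hpW, i1, j1, hj1, x1, hx1, hp⟩,
    ⟨q, hqW, i2, j2, hj2, x2, hx2, hq⟩⟩ := hJ (L + 1)
  -- the whole graph
  have hall : ∀ x y : Γ, ∃ E : Set Γ, E.Finite ∧ Relation.ReflTransGen (Rel (cay S) E) x y := by
    intro x y
    have h1 := slc Γ S a b k B hPl (fun _ => True) ⟨0, trivial⟩ (fun _ _ _ _ _ _ _ => trivial)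
    have hmem : ∀ g : Γ, g ∈ Sl a b B (fun _ => True) := by
      intro g
      obtain ⟨i, j, x, hx, he⟩ := hPl.cov g
      exact ⟨i, j, trivial, x, hx, he⟩
    obtain ⟨E, h2, _, _, h3⟩ := Rel.finite (rel_of_conn h1 (hmem x) (hmem y)) (hmem x)
    exact ⟨E, h2, h3⟩
  obtain ⟨Ep, hEp, hEp2⟩ := hall x₀ (b ^ (L + 1))
  obtain ⟨Em, hEm, hEm2⟩ := hall (b ^ (-(L + 1))) x₀
  obtain ⟨L', hL'0, hL'⟩ := far Γ S a b k B hPl (W ∪ Ep ∪ Em) ((hWf.union hEp).union hEm)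
  obtain ⟨M, hM⟩ : ∃ M : ℤ, 2 * (L + L' + (L + 1)) < M := ⟨_, lt_add_one _⟩
  have hM0 : 0 < M := by omega
  have key : ∀ (i m : ℕ) (t : ℤ), |t| < M → t = M * (i : ℤ) - M * (m : ℤ) → i = m := by
    intro i m t ht he
    by_contra hne
    have h1 : 1 ≤ |(i : ℤ) - m| := Int.one_le_abs (by omega)
    have h2 : t = M * ((i : ℤ) - m) := by rw [he]; ring
    rw [h2, abs_mul, abs_of_pos hM0] at ht
    nlinarith
  let T : ℕ → Set Γ := fun i => {y | b ^ (-(M * (i : ℤ))) * y ∈ l}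
  have hT : ∀ (i : ℕ) (i' j' : ℤ), ∀ x ∈ B, a ^ i' * b ^ j' * x ∈ T i →
      |j' - M * (i : ℤ)| ≤ L := by
    intro i i' j' x hx h
    have h' : b ^ (-(M * (i : ℤ))) * (a ^ i' * b ^ j' * x) ∈ l := h
    rw [hab] at h'
    exact hLl _ _ x hx h'
  have hxT : ∀ (i : ℕ) (y : Γ), y ∈ l → b ^ (M * (i : ℤ)) * y ∈ T i := by
    intro i y hy
    change b ^ (-(M * (i : ℤ))) * (b ^ (M * (i : ℤ)) * y) ∈ l
    rw [zpow_neg, inv_mul_cancel_left]
    exact hy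
  have hdis : ∀ i j : ℕ, i ≠ j → Disjoint (T i) (T j) := by
    intro i j hij
    rw [Set.disjoint_left]
    intro y hy hy'
    obtain ⟨i', j', x, hx, rfl⟩ := hPl.cov y
    have h1 := hT i i' j' x hx hy
    have h2 := hT j i' j' x hx hy'
    rw [abs_le] at h1 h2
    refine hij (key i j (M * (i : ℤ) - M * (j : ℤ)) ?_ rfl)
    rw [abs_lt]
    constructor <;> linarith [h1.1, h1.2, h2.1, h2.2]
  have hF : ∀ (i r : ℕ) (e : Γ), e ∈ W ∪ Ep ∪ Em → b ^ (M * (i : ℤ)) * e ∈ T r → i = r := by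
    intro i r e he hmem
    obtain ⟨i', j', x, hx, rfl⟩ := hPl.cov e
    have h1 := hL' i' j' x hx he
    rw [hab] at hmem
    have h2 := hT r i' _ x hx hmem
    rw [abs_le] at h1 h2
    refine key i r (M * (i : ℤ) - M * (r : ℤ)) ?_ rfl
    rw [abs_lt]
    constructor <;> linarith [h1.1, h1.2, h2.1, h2.2]
  -- bands
  have hband : ∀ (m : ℕ) (x y : Γ),
      x ∈ Sl a b B (fun j => M * (m : ℤ) + (L + 1) ≤ j ∧ j ≤ M * (m : ℤ) + M - (L + 1)) →
      y ∈ Sl a b B (fun j => M * (m : ℤ) + (L + 1) ≤ j ∧ j ≤ M * (m : ℤ) + M - (L + 1)) →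
      Relation.ReflTransGen (Rel (cay S) {y | ∀ r, y ∉ T r}) x y := by
    intro m x y hx hy
    have h1 := slc Γ S a b k B hPl
      (fun j => M * (m : ℤ) + (L + 1) ≤ j ∧ j ≤ M * (m : ℤ) + M - (L + 1))
      ⟨M * (m : ℤ) + (L + 1), le_rfl, by linarith⟩
      (fun i j l' hi hl' hij hjl => ⟨hi.1.trans hij, hjl.trans hl'.2⟩)
    refine Rel.mono ?_ (rel_of_conn h1 hx hy)
    rintro w ⟨i', j', ⟨g1, g2⟩, x', hx', rfl⟩ r hr
    have h2 := hT r i' j' x' hx' hr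
    rw [abs_le] at h2
    have k1 : M * (m : ℤ) < M * (r : ℤ) := by linarith [h2.1, h2.2]
    have k2 : M * (r : ℤ) < M * ((m : ℤ) + 1) := by linarith [h2.1, h2.2]
    have k3 := lt_of_mul_lt_mul_left k1 hM0.le
    have k4 := lt_of_mul_lt_mul_left k2 hM0.le
    omega
  have hbmem : ∀ (n : ℤ) (P : ℤ → Prop), P n → b ^ n ∈ Sl a b B P := by
    intro n P hP
    exact ⟨0, n, hP, 1, hPl.one, by simp⟩
  have hp' : |j1| ≤ L' := hL' i1 j1 x1 hx1 (by rw [← hp]; exact Or.inl (Or.inl hpW))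
  have hq' : |j2| ≤ L' := hL' i2 j2 x2 hx2 (by rw [← hq]; exact Or.inl (Or.inl hqW))
  rw [abs_le] at hp' hq'
  have hj1' : L + 1 ≤ j1 := hj1
  have hj2' : j2 ≤ -(L + 1) := hj2
  have hhop : ∀ m : ℕ, Relation.ReflTransGen (Rel (cay S) {y | ∀ r, y ∉ T r})
      (b ^ (M * (m : ℤ) + (L + 1))) (b ^ (M * ((m + 1 : ℕ) : ℤ) + (L + 1))) := by
    intro m
    have s1 := hband m (b ^ (M * (m : ℤ) + (L + 1))) (b ^ (M * ((m + 1 : ℕ) : ℤ)) * q)
      (hbmem _ _ ⟨le_rfl, by linarith⟩) (by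
        rw [hq, hab]
        refine ⟨i2, _, ⟨?_, ?_⟩, x2, hx2, rfl⟩
        · push_cast; linarith [hq'.1]
        · push_cast; linarith)
    have s2 : Relation.ReflTransGen (Rel (cay S) {y | ∀ r, y ∉ T r})
        (b ^ (M * ((m + 1 : ℕ) : ℤ)) * q) (b ^ (M * ((m + 1 : ℕ) : ℤ)) * p) := by
      refine rel_shift _ ?_ (rel_of_conn hWc hqW hpW)
      intro w hw r hr
      have h1 := hF (m + 1) r w (Or.inl (Or.inl hw)) hr
      subst h1
      have h2 : b ^ (-(M * ((m + 1 : ℕ) : ℤ))) * (b ^ (M * ((m + 1 : ℕ) : ℤ)) * w) ∈ l := hr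
      rw [zpow_neg, inv_mul_cancel_left] at h2
      exact Set.disjoint_left.1 hWl hw h2
    have s3 := hband (m + 1) (b ^ (M * ((m + 1 : ℕ) : ℤ)) * p)
      (b ^ (M * ((m + 1 : ℕ) : ℤ) + (L + 1))) (by
        rw [hp, hab]
        refine ⟨i1, _, ⟨?_, ?_⟩, x1, hx1, rfl⟩
        · linarith
        · linarith [hp'.2]) (hbmem _ _ ⟨le_rfl, by linarith⟩)
    exact s1.trans (s2.trans s3)
  have hhops : ∀ (i d : ℕ), Relation.ReflTransGen (Rel (cay S) {y | ∀ r, y ∉ T r})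
      (b ^ (M * (i : ℤ) + (L + 1))) (b ^ (M * ((i + d : ℕ) : ℤ) + (L + 1))) := by
    intro i d
    induction d with
    | zero => exact Relation.ReflTransGen.refl
    | succ d ih => exact ih.trans (hhop (i + d))
  have hlt : ∀ i j : ℕ, i < j → ∃ E : Set Γ, E.Finite ∧
      Relation.ReflTransGen (Rel (cay S) E) (b ^ (M * (i : ℤ)) * x₀) (b ^ (M * (j : ℤ)) * x₀) ∧
      ∀ r, r ≠ i → r ≠ j → Disjoint E (T r) := by
    intro i j hij
    have hX0 : {y | ∀ r, y ∉ T r} ⊆ {y : Γ | ∀ r, r ≠ i → r ≠ j → y ∉ T r} :=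
      fun y hy r _ _ => hy r
    have p1 : Relation.ReflTransGen (Rel (cay S) {y : Γ | ∀ r, r ≠ i → r ≠ j → y ∉ T r})
        (b ^ (M * (i : ℤ)) * x₀) (b ^ (M * (i : ℤ)) * b ^ (L + 1)) :=
      rel_shift _ (fun e he r hri _ hmem =>
        hri (hF i r e (Or.inl (Or.inr he)) hmem).symm) hEp2
    have p4 : Relation.ReflTransGen (Rel (cay S) {y : Γ | ∀ r, r ≠ i → r ≠ j → y ∉ T r})
        (b ^ (M * (j : ℤ)) * b ^ (-(L + 1))) (b ^ (M * (j : ℤ)) * x₀) :=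
      rel_shift _ (fun e he r _ hrj hmem =>
        hrj (hF j r e (Or.inr he) hmem).symm) hEm2
    obtain ⟨d, rfl⟩ : ∃ d, j = i + d + 1 := ⟨j - i - 1, by omega⟩
    have p2 := hhops i d
    have p3 := hband (i + d) (b ^ (M * ((i + d : ℕ) : ℤ) + (L + 1)))
      (b ^ (M * ((i + d + 1 : ℕ) : ℤ) + -(L + 1))) (hbmem _ _ ⟨le_rfl, by linarith⟩)
      (hbmem _ _ ⟨by push_cast; linarith, by push_cast; linarith⟩)
    rw [← zpow_add] at p1 p4
    have tot := p1.trans ((Rel.mono hX0 p2).trans ((Rel.mono hX0 p3).trans p4))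
    obtain ⟨E, e1, e2, _, e3⟩ := Rel.finite tot (by
      intro r hri _ hmem
      exact Set.disjoint_left.1 (hdis i r (Ne.symm hri)) (hxT i x₀ hx₀) hmem)
    refine ⟨E, e1, e3, ?_⟩
    intro r hri hrj
    rw [Set.disjoint_left]
    intro y hy hyT
    exact e2 hy r hri hrj hyT
  have hzn : ∀ (n : ℕ) (y : Γ), z ^ n * y ∈ l ↔ y ∈ l := by
    intro n
    induction n with
    | zero => intro y; rw [pow_zero, one_mul]
    | succ n ih => intro y; rw [pow_succ', mul_assoc, hzl, ih]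
  apply kn_of
  refine combine z hz T (fun i => b ^ (M * (i : ℤ)) * x₀) (fun i => hxT i x₀ hx₀) ?_ ?_ hdis ?_
  · intro i y hy
    have h1 := rel_shift (S := S) (b ^ (M * (i : ℤ))) (Y := T i) (fun w hw => hxT i w hw)
      (rel_of_conn hl hx₀ (show b ^ (-(M * (i : ℤ))) * y ∈ l from hy))
    rw [zpow_neg, mul_inv_cancel_left] at h1
    exact h1
  · intro i n y
    change b ^ (-(M * (i : ℤ))) * (z ^ n * y) ∈ l ↔ b ^ (-(M * (i : ℤ))) * y ∈ l
    have h1 : b ^ (-(M * (i : ℤ))) * z ^ n = z ^ n * b ^ (-(M * (i : ℤ))) :=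
      ((show Commute z b from hzb).symm.zpow_left _ |>.pow_right n).eq
    rw [← mul_assoc, h1, mul_assoc, hzn]
  · intro i j hij
    rcases Nat.lt_or_gt_of_ne hij with h | h
    · exact hlt i j h
    · obtain ⟨E, e1, e2, e3⟩ := hlt j i h
      exact ⟨E, e1, Rel.symm e2, fun r hri hrj => e3 r hrj hri⟩

end Pool.Agent.Helper66.KZ
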